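import Mathlib

open Filter Topology Set MeasureTheory

namespace H11.Arcs

abbrev E2 := EuclideanSpace ℝ (Fin 2)

/-- A differentiable arc in the plane: an embedding `γ` of a nondegenerate interval `I`, with
nonzero derivative `γ'` (one-sided at included endpoints). -/
structure Arc where
  I : Set ℝ
  γ : ℝ → E2
  γ' : ℝ → E2
  ord : I.OrdConnected
  nontriv : I.Nontrivial
  emb : IsEmbedding (I.restrict γ)
  der : ∀ t ∈ I, HasDerivWithinAt γ (γ' t) I t ∧ γ' t ≠ 0

/-- The points of the arc. -/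
def Arc.carrier (a : Arc) : Set E2 := a.γ '' a.I

/-- The length of the arc. -/
noncomputable def Arc.length (a : Arc) : ENNReal := eVariationOn a.γ a.I

/-- Endpoints: the limit points of the two ends. -/
def Arc.IsEnd (a : Arc) (x : E2) : Prop :=
  MapClusterPt x atBot (a.I.restrict a.γ) ∨ MapClusterPt x atTop (a.I.restrict a.γ)

/-- A covering of the plane by non-overlapping arcs. -/
def Covering (F : Set Arc) : Prop := F.PairwiseDisjoint Arc.carrier ∧ ⋃ a ∈ F, a.carrier = univ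

/-- The angle between the lines spanned by `u` and `v`. -/
noncomputable def lineAngle (u v : E2) : ℝ :=
  min (InnerProductGeometry.angle u v) (Real.pi - InnerProductGeometry.angle u v)

/-- `F` is smooth at `x`. -/
def SmoothAt (F : Set Arc) (x : E2) : Prop :=
  ∀ ε > 0, ∃ N, IsOpen N ∧ x ∈ N ∧ (∀ a ∈ F, ∀ y ∈ N, ¬ a.IsEnd y) ∧
    ∀ a ∈ F, ∀ b ∈ F, ∀ s ∈ a.I, ∀ t ∈ b.I, a.γ s ∈ N → b.γ t ∈ N →
      lineAngle (a.γ' s) (b.γ' t) < ε

theorem iso (y : ℝ) : Isometry fun t : ℝ => (!₂[t, y] : E2) :=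
  Isometry.of_dist_eq fun s t => by
    simp [EuclideanSpace.dist_eq, Real.sqrt_sq_eq_abs]

noncomputable def seg (c y : ℝ) : Arc where
  I := Ico c (c + 1)
  γ t := !₂[t, y]
  γ' _ := !₂[1, 0]
  ord := ordConnected_Ico
  nontriv := ⟨c, by simp, c + 1 / 2, by constructor <;> linarith, by linarith⟩
  emb := (iso y).isEmbedding.comp IsEmbedding.subtypeVal
  der t _ := by
    refine ⟨HasDerivAt.hasDerivWithinAt ?_, fun h => by simpa using congrArg (· 0) h⟩
    have := ((hasDerivAt_id t).smul_const (!₂[1, 0] : E2)).add_const !₂[0, y]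
    convert this using 1
    · ext s i; fin_cases i <;> simp
    · simp

theorem seg_end (c y : ℝ) : (seg c y).IsEnd !₂[c, y] := by
  haveI : Nonempty (seg c y).I := ⟨⟨c, by simp [seg]⟩⟩
  exact .inl (mapClusterPt_iff_frequently.2 fun s hs => frequently_atBot.2 fun t =>
    ⟨⟨c, by simp [seg]⟩, t.2.1, mem_of_mem_nhds hs⟩)

open Classical in
noncomputable def φ (y : ℝ) : ℝ := if h : ∃ a b : ℚ, y = a * √2 + b then h.choose else 0

theorem φ_eq (a b : ℚ) : φ (a * √2 + b) = a := by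
  have h : ∃ a' b' : ℚ, (a * √2 + b : ℝ) = a' * √2 + b' := ⟨a, b, rfl⟩
  obtain ⟨b', hb⟩ := h.choose_spec
  rw [φ, dif_pos h]
  generalize h.choose = a' at hb
  by_contra hn
  refine irrational_sqrt_two ⟨(b - b') / (a' - a), ?_⟩
  push_cast
  rw [div_eq_iff (sub_ne_zero.2 hn)]
  linear_combination hb

end H11.Arcs

open H11.Arcs

theorem Pool.Agent.Results.MP_85e89d_gt.Counter.result :
    ∃ F : Set Arc, Covering F ∧ (∀ a ∈ F, 1 / 2 ≤ a.length ∧ a.length < ⊤) ∧
      (∀ x, ¬ SmoothAt F x) ∧ 0 < volume {x | ¬ SmoothAt F x} := by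
  have key : ∀ x, ¬ SmoothAt (range fun p : ℤ × ℝ => seg (φ p.2 + p.1) p.2) x := by
    intro x h
    obtain ⟨N, h1, h2, h3, -⟩ := h 1 one_pos
    obtain ⟨r, hr, h4⟩ := Metric.isOpen_iff.1 h1 x h2
    obtain ⟨a, ha⟩ := exists_rat_near (x 0) (half_pos hr)
    obtain ⟨b, hb⟩ := exists_rat_near (x 1 - a * √2) (half_pos hr)
    refine h3 _ ⟨(0, a * √2 + b), rfl⟩ !₂[a, a * √2 + b] (h4 ?_) ?_
    · rw [Metric.mem_ball, dist_comm, EuclideanSpace.dist_eq, Real.sqrt_lt' hr, Fin.sum_univ_two]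
      simp only [Real.dist_eq, Matrix.cons_val]
      rw [sub_add_eq_sub_sub]
      nlinarith [abs_nonneg (x 0 - a), abs_nonneg (x 1 - a * √2 - b)]
    · simp only [φ_eq, Int.cast_zero, add_zero]
      exact seg_end _ _
  refine ⟨_, ⟨?_, ?_⟩, ?_, key, ?_⟩
  · rintro _ ⟨⟨n, y⟩, rfl⟩ _ ⟨⟨m, z⟩, rfl⟩ hne
    refine disjoint_left.2 ?_
    rintro _ ⟨s, hs, rfl⟩ ⟨t, ht, h⟩
    have h0 : t = s := congrArg (· 0) h
    have h1 : z = y := congrArg (· 1) h
    subst h0 h1
    have a : (n : ℝ) < m + 1 := by linarith [hs.1, ht.2]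
    have b : (m : ℝ) < n + 1 := by linarith [hs.2, ht.1]
    have a' : n < m + 1 := by exact_mod_cast a
    have b' : m < n + 1 := by exact_mod_cast b
    exact hne (by rw [show n = m by omega])
  · refine eq_univ_of_forall fun x => mem_biUnion (mem_range_self (⌊x 0 - φ (x 1)⌋, x 1))
      ⟨x 0, ⟨?_, ?_⟩, ?_⟩
    · linarith [Int.floor_le (x 0 - φ (x 1))]
    · linarith [Int.lt_floor_add_one (x 0 - φ (x 1))]
    · ext i; fin_cases i <;> rfl
  · rintro _ ⟨⟨n, y⟩, rfl⟩
    simp only [Arc.length, seg]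
    generalize φ y + n = c
    constructor
    · refine le_trans (le_of_eq ?_) (eVariationOn.edist_le _ (x := c + 1 / 2) (y := c)
        (by constructor <;> linarith) (by simp))
      rw [(iso y).edist_eq, edist_dist, Real.dist_eq, add_sub_cancel_left, abs_of_pos one_half_pos,
        ENNReal.ofReal_div_of_pos two_pos]
      simp
    · have := (iso y).lipschitz.locallyBoundedVariationOn univ c (c + 1) trivial trivial
      exact lt_top_iff_ne_top.2 (this.mono fun t ht => ⟨trivial, Ico_subset_Icc_self ht⟩)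
  · rw [eq_univ_of_forall key]
    exact isOpen_univ.measure_pos _ univ_nonempty
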